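import Pool.Agent.Helper18.RG.KER

/-!
# Module DNU: `ν ≤ d`
-/

namespace Pool.Agent.Helper18.RG

open Pool.Agent.Helper67.RG

open Polynomial

section

variable {ν : ℕ} {D : Pell ν} (T : Tower D)

/-- independence of the binary forms in `τ - λ0`, `τ - λ1` -/
theorem bin_ind (a0 a1 : ℂ) (h01 : a1 - a0 ≠ 0) (K n : ℕ) (hnK : n ≤ K + 1) (c : Fin n → ℂ)
    (h : ∑ a : Fin n, C (c a) * ((X - C a0) ^ (a : ℕ) * (X - C a1) ^ (K - (a : ℕ))) = 0)
    (a : Fin n) : c a = 0 := by
  classical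
  let P : ℂ[X] := ∑ a : Fin n, C (c a) * X ^ (a : ℕ)
  have hP : ∀ z : ℂ, z ≠ 1 → P.eval z = 0 := by
    intro z hz
    have hz1 : 1 - z ≠ 0 := sub_ne_zero.mpr (Ne.symm hz)
    have ht1 : (a0 - z * a1) / (1 - z) - a1 ≠ 0 := by
      have e : (a0 - z * a1) / (1 - z) - a1 = (a0 - a1) / (1 - z) := by
        field_simp
        ring
      rw [e]
      refine div_ne_zero ?_ hz1
      intro h
      apply h01
      rw [← neg_sub, h, neg_zero]
    have ht0 : (a0 - z * a1) / (1 - z) - a0 = z * ((a0 - z * a1) / (1 - z) - a1) := by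
      field_simp
      ring
    have h1 := congrArg (Polynomial.eval ((a0 - z * a1) / (1 - z))) h
    rw [eval_finsetSum, eval_zero] at h1
    simp only [eval_mul, eval_C, eval_pow, eval_sub, eval_X] at h1
    have h2 : ∑ a : Fin n, c a * (((a0 - z * a1) / (1 - z) - a0) ^ (a : ℕ) *
        ((a0 - z * a1) / (1 - z) - a1) ^ (K - (a : ℕ))) =
        (∑ a : Fin n, c a * z ^ (a : ℕ)) * ((a0 - z * a1) / (1 - z) - a1) ^ K := by
      rw [Finset.sum_mul]
      refine Finset.sum_congr rfl fun a _ => ?_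
      have ha : (a : ℕ) + (K - (a : ℕ)) = K := by
        have := a.2
        omega
      conv_rhs => rw [← ha, pow_add]
      rw [ht0, mul_pow]
      ring
    rw [h2] at h1
    have h3 : P.eval z = ∑ a : Fin n, c a * z ^ (a : ℕ) := by
      show (∑ a : Fin n, C (c a) * X ^ (a : ℕ)).eval z = _
      rw [eval_finsetSum]
      simp only [eval_mul, eval_C, eval_pow, eval_X]
    rw [h3]
    exact (mul_eq_zero.mp h1).resolve_right (pow_ne_zero _ ht1)
  have h0 : (X - C 1) * P = 0 := by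
    apply Polynomial.funext
    intro z
    rw [eval_mul, eval_sub, eval_X, eval_C, eval_zero]
    by_cases hz : z = 1
    · rw [hz, sub_self, zero_mul]
    · rw [hP z hz, mul_zero]
  have hP0 : P = 0 := (mul_eq_zero.mp h0).resolve_left (X_sub_C_ne_zero 1)
  have h1 := congrArg (fun p : ℂ[X] => p.coeff (a : ℕ)) hP0
  have h2 : P.coeff (a : ℕ) = c a := by
    show (∑ a : Fin n, C (c a) * X ^ (a : ℕ)).coeff (a : ℕ) = _
    rw [finsetSum_coeff, Finset.sum_eq_single a]
    · rw [coeff_C_mul, coeff_X_pow, if_pos rfl, mul_one]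
    · intro b _ hb
      rw [coeff_C_mul, coeff_X_pow, if_neg, mul_zero]
      intro h
      exact hb (Fin.ext h.symm)
    · intro h
      exact absurd (Finset.mem_univ _) h
  rw [← h2]
  exact h1

/-- homogenized polynomials in `τ³` lie in `A0` -/
theorem hom_mem (P : ℂ[X]) (n : ℕ) (hn : P.natDegree ≤ n) :
    (monomial (6 * n) (aeval (tau ^ 3) P) : Om[X]) ∈ A0 := by
  rw [aeval_eq_sum_range, map_sum]
  refine Subalgebra.sum_mem _ fun k hk => ?_
  have hk' : k ≤ n := by
    rw [Finset.mem_range] at hk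
    omega
  have e : (monomial (6 * n) (P.coeff k • (tau ^ 3) ^ k) : Om[X]) =
      P.coeff k • ((C tau * X ^ 2) ^ (3 * k) * (X ^ 2) ^ (3 * (n - k))) := by
    rw [← smul_monomial, ← C_mul_X_pow_eq_monomial]
    congr 1
    have h6 : 6 * n = 2 * (3 * k) + 2 * (3 * (n - k)) := by omega
    rw [h6, pow_add, mul_pow, ← C_pow, ← pow_mul, ← pow_mul, ← pow_mul, ← mul_assoc]
  rw [e]
  exact A0.smul_mem (A0.mul_mem (A0.pow_mem Tower.t_mem _) (A0.pow_mem Tower.s_mem _)) _

theorem int_rr (s : Finset (Fin 12)) : IsIntegral A0 (monomial s.card (T.rr s) : Om[X]) := by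
  have e : (monomial s.card (T.rr s) : Om[X]) = ∏ i ∈ s, T.xx i := by
    have h := phi_mon T s
    unfold phi mon at h
    rw [map_prod] at h
    simp only [MvPolynomial.aeval_X] at h
    rw [h, C_mul_X_pow_eq_monomial]
  rw [e]
  exact IsIntegral.prod _ fun i _ => (T.xx_mem i).1

theorem wp_mem : (monomial 6 T.w : Om[X]) ∈ T.B := by
  have hν := D.hν
  refine ⟨?_, fun m => ?_⟩
  · refine IsIntegral.of_pow (n := ν) (by omega) ?_
    have hc1 : I1.card = 6 := by decide
    have hc2 : I2.card = 6 := by decide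
    have e : (monomial 6 T.w : Om[X]) ^ ν =
        monomial (6 * (ν - 1)) (aeval (tau ^ 3) D.p) * monomial I2.card (T.rr I2) +
        monomial (6 * (ν - 1)) (aeval (tau ^ 3) D.q) * monomial I1.card (T.rr I1) := by
      rw [monomial_pow, T.hw', Tower.G, monomial_mul_monomial, monomial_mul_monomial, map_add,
        hc1, hc2]
      have : 6 * (ν - 1) + 6 = 6 * ν := by omega
      rw [this]
    rw [e]
    have hp := hom_mem D.p (ν - 1) D.dp.le
    have hq := hom_mem D.q (ν - 1) D.dq.le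
    exact ((isIntegral_algebraMap (R := A0) (x := ⟨_, hp⟩)).mul (int_rr T I2)).add
      ((isIntegral_algebraMap (R := A0) (x := ⟨_, hq⟩)).mul (int_rr T I1))
  · rw [coeff_monomial]
    split_ifs with h
    · subst h
      have h := T.mem_E (s := ∅) (i := 1) (m := 6) (by omega) (by simp)
      simpa [Tower.rr] using h
    · exact Submodule.zero_mem _

/-- the index type of the independent family -/
abbrev Ix (ν M : ℕ) : Type := Fin ν × Bool × Fin M

/-- the elements of the family, in `Ω[X]` -/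
noncomputable def el (m : ℕ) (p : ℕ × Bool × ℕ) : Om[X] :=
  if p.2.1 then T.xx 0 ^ (2 * p.2.2 + 1) * T.xx 1 ^ (2 * (m - 3 * p.1 - 1 - p.2.2) + 1) *
    (monomial 6 T.w) ^ p.1
  else T.xx 0 ^ (2 * p.2.2) * T.xx 1 ^ (2 * (m - 3 * p.1 - p.2.2)) * (monomial 6 T.w) ^ p.1

theorem el_mem (m : ℕ) (p : ℕ × Bool × ℕ) : el T m p ∈ T.B := by
  unfold el
  split_ifs
  · exact T.B.mul_mem (T.B.mul_mem (T.B.pow_mem (T.xx_mem 0) _) (T.B.pow_mem (T.xx_mem 1) _))
      (T.B.pow_mem (wp_mem T) _)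
  · exact T.B.mul_mem (T.B.mul_mem (T.B.pow_mem (T.xx_mem 0) _) (T.B.pow_mem (T.xx_mem 1) _))
      (T.B.pow_mem (wp_mem T) _)

/-- the subset of an index -/
def sb (e : Bool) : Finset (Fin 12) := if e then {0, 1} else ∅

/-- the coefficient of an index -/
noncomputable def kk (D : Pell ν) (m : ℕ) (p : ℕ × Bool × ℕ) : ℂ[X] :=
  (X - C (D.lam 0)) ^ p.2.2 *
    (X - C (D.lam 1)) ^ ((if p.2.1 then m - 3 * p.1 - 1 else m - 3 * p.1) - p.2.2)

theorem el_eq (m : ℕ) (p : ℕ × Bool × ℕ) (hp : 3 * p.1 + p.2.2 + 1 ≤ m) :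
    el T m p = monomial (2 * m) (aeval tau (kk D m p) * (T.rr (sb p.2.1) * T.w ^ p.1)) := by
  obtain ⟨i, e, a⟩ := p
  simp only at hp
  unfold el kk sb
  have h01 : (0 : Fin 12) ≠ 1 := by decide
  have r0 : T.r 0 * T.r 0 = tau - algebraMap ℂ Om (D.lam 0) := by rw [← T.hr 0, pow_two]
  have r1 : T.r 1 * T.r 1 = tau - algebraMap ℂ Om (D.lam 1) := by rw [← T.hr 1, pow_two]
  cases e with
  | true =>
    simp only [if_true]
    rw [Tower.xx, Tower.xx, monomial_pow, monomial_pow, monomial_pow, monomial_mul_monomial,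
      monomial_mul_monomial]
    have e1 : 1 * (2 * a + 1) + 1 * (2 * (m - 3 * i - 1 - a) + 1) + 6 * i = 2 * m := by omega
    rw [e1]
    congr 1
    rw [Tower.rr, Finset.prod_pair h01, pow_succ, pow_succ, pow_mul, pow_mul, T.hr, T.hr]
    simp only [map_mul, map_pow, map_sub, aeval_X, aeval_C]
    ring
  | false =>
    simp only [Bool.false_eq_true, if_false]
    rw [Tower.xx, Tower.xx, monomial_pow, monomial_pow, monomial_pow, monomial_mul_monomial,
      monomial_mul_monomial]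
    have e1 : 1 * (2 * a) + 1 * (2 * (m - 3 * i - a)) + 6 * i = 2 * m := by omega
    rw [e1]
    congr 1
    rw [Tower.rr, Finset.prod_empty, pow_mul, pow_mul, T.hr, T.hr]
    simp only [map_mul, map_pow, map_sub, aeval_X, aeval_C]
    ring

/-- the natural number index -/
def nx {M : ℕ} (p : Ix ν M) : ℕ × Bool × ℕ := (p.1, p.2.1, p.2.2)

/-- the family in the graded piece -/
noncomputable def fam (m M : ℕ) (hM : M + 3 * ν ≤ m) (p : Ix ν M) : T.grB (2 * m) :=
  ⟨⟨el T m (nx p), el_mem T m (nx p)⟩, ⟨_, el_eq T m (nx p) (by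
    have h1 := p.1.2
    have h2 := p.2.2.2
    show 3 * (p.1 : ℕ) + (p.2.2 : ℕ) + 1 ≤ m
    omega)⟩⟩

theorem sb_inj (e e' : Bool) (h : sb e = sb e') : e = e' := by
  unfold sb at h
  cases e with
  | true =>
    cases e' with
    | true => rfl
    | false => exact absurd h (by simp)
  | false =>
    cases e' with
    | true => exact absurd h.symm (by simp)
    | false => rfl

theorem om_ind (hI : ST_IND) (m M : ℕ) (hM : M + 3 * ν ≤ m) :
    LinearIndependent ℂ (fun p : Ix ν M =>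
      aeval tau (kk D m (nx p)) * (T.rr (sb p.2.1) * T.w ^ (p.1 : ℕ))) := by
  classical
  rw [Fintype.linearIndependent_iff]
  intro c hc
  have h1 : ∑ p : Ix ν M, algebraMap ℂ Om (c p) *
      (aeval tau (kk D m (nx p)) * (T.rr (sb p.2.1) * T.w ^ (p.1 : ℕ))) = 0 := by
    rw [← hc]
    refine Finset.sum_congr rfl fun p _ => ?_
    rw [Algebra.smul_def]
  have hli := hI ν D T
  rw [Fintype.linearIndependent_iff] at hli
  have h3 := hli (fun q : Finset (Fin 12) × Fin ν =>
    algebraMap ℂ[X] (RatFunc ℂ) (∑ p : Ix ν M,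
      if sb p.2.1 = q.1 ∧ p.1 = q.2 then C (c p) * kk D m (nx p) else 0)) ?_
  · intro p0
    have h4 := h3 (sb p0.2.1, p0.1)
    have h5 : ∑ p : Ix ν M, (if sb p.2.1 = sb p0.2.1 ∧ p.1 = p0.1 then
        C (c p) * kk D m (nx p) else 0) = 0 :=
      (RatFunc.algebraMap_injective ℂ) (by
        rw [map_zero]
        exact h4)
    have h6 : ∑ p : Ix ν M, (if sb p.2.1 = sb p0.2.1 ∧ p.1 = p0.1 then
        C (c p) * kk D m (nx p) else 0) =
        ∑ a : Fin M, C (c (p0.1, p0.2.1, a)) * kk D m (nx (p0.1, p0.2.1, a)) := by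
      rw [Fintype.sum_prod_type, Finset.sum_eq_single p0.1]
      · rw [Fintype.sum_prod_type, Finset.sum_eq_single p0.2.1]
        · refine Finset.sum_congr rfl fun a _ => ?_
          rw [if_pos ⟨rfl, rfl⟩]
        · intro e _ he
          refine Finset.sum_eq_zero fun a _ => ?_
          rw [if_neg]
          rintro ⟨h, _⟩
          exact he (sb_inj _ _ h)
        · intro h
          exact absurd (Finset.mem_univ _) h
      · intro i _ hi
        refine Finset.sum_eq_zero fun a _ => ?_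
        rw [if_neg]
        rintro ⟨_, h⟩
        exact hi h
      · intro h
        exact absurd (Finset.mem_univ _) h
    rw [h6] at h5
    have hi := p0.1.2
    exact bin_ind (D.lam 0) (D.lam 1) (lam_ne D)
      (if p0.2.1 then m - 3 * (p0.1 : ℕ) - 1 else m - 3 * (p0.1 : ℕ)) M
      (by split_ifs <;> omega) (fun a => c (p0.1, p0.2.1, a)) h5 p0.2.2
  · rw [← h1]
    have h7 : ∀ q : Finset (Fin 12) × Fin ν,
        algebraMap ℂ[X] (RatFunc ℂ) (∑ p : Ix ν M,
          if sb p.2.1 = q.1 ∧ p.1 = q.2 then C (c p) * kk D m (nx p) else 0) •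
            (T.rr q.1 * T.w ^ (q.2 : ℕ)) =
        ∑ p : Ix ν M, (if q = (sb p.2.1, p.1) then algebraMap ℂ Om (c p) *
          (aeval tau (kk D m (nx p)) * (T.rr (sb p.2.1) * T.w ^ (p.1 : ℕ))) else 0) := by
      intro q
      rw [Algebra.smul_def, ← aeval_tau, map_sum, Finset.sum_mul]
      refine Finset.sum_congr rfl fun p _ => ?_
      by_cases h : sb p.2.1 = q.1 ∧ p.1 = q.2
      · rw [if_pos h, if_pos (Prod.ext h.1.symm h.2.symm), map_mul, aeval_C, h.1, h.2, mul_assoc]
      · rw [if_neg h, if_neg, map_zero, zero_mul]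
        intro h'
        exact h ⟨(congrArg Prod.fst h').symm, (congrArg Prod.snd h').symm⟩
    rw [Finset.sum_congr rfl fun q _ => h7 q, Finset.sum_comm]
    refine Finset.sum_congr rfl fun p _ => ?_
    rw [Finset.sum_ite_eq']
    simp only [Finset.mem_univ, if_true]

/-- the coefficient map -/
noncomputable def cf (n : ℕ) : T.grB n →ₗ[ℂ] Om where
  toFun P := ((P : T.B) : Om[X]).coeff n
  map_add' P Q := by
    show (((P + Q : T.grB n) : T.B) : Om[X]).coeff n = _
    rw [Submodule.coe_add, Subalgebra.coe_add, coeff_add]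
  map_smul' c P := by
    show (((c • P : T.grB n) : T.B) : Om[X]).coeff n = _
    rw [Submodule.coe_smul, Subalgebra.coe_smul, coeff_smul]
    rfl

theorem fam_ind (hI : ST_IND) (m M : ℕ) (hM : M + 3 * ν ≤ m) :
    LinearIndependent ℂ (fam T m M hM) := by
  refine LinearIndependent.of_comp (cf T (2 * m)) ?_
  have h := om_ind T hI m M hM
  have e : (cf T (2 * m) ∘ fam T m M hM) = (fun p : Ix ν M =>
      aeval tau (kk D m (nx p)) * (T.rr (sb p.2.1) * T.w ^ (p.1 : ℕ))) := by
    funext p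
    show (el T m (nx p)).coeff (2 * m) = _
    rw [el_eq T m (nx p) (by
      have h1 := p.1.2
      have h2 := p.2.2.2
      show 3 * (p.1 : ℕ) + (p.2.2 : ℕ) + 1 ≤ m
      omega), coeff_monomial, if_pos rfl]
    rfl
  rw [e]
  exact h

theorem fam_card (hI : ST_IND) (hF : ST_FD) (m M : ℕ) (hM : M + 3 * ν ≤ m) :
    ν * (2 * M) ≤ Module.finrank ℂ (T.grB (2 * m)) := by
  have := hF ν D T (2 * m)
  have h := (fam_ind T hI m M hM).fintype_card_le_finrank
  simpa using h

end

theorem st_DNU (hI : ST_IND) (hF : ST_FD) : ST_DNU := by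
  intro ν D T M d c h
  by_contra hlt
  have hd : d + 1 ≤ ν := by omega
  obtain ⟨K, hK⟩ : ∃ K : ℕ, c < K ∧ M ≤ K := ⟨c.toNat + M + 1, by omega, by omega⟩
  -- take `M' = K + 3 ν d`
  have h1 := fam_card T hI hF (K + 3 * ν * (d + 1) + 3 * ν) (K + 3 * ν * (d + 1)) (le_refl _)
  have h2 := h (2 * (K + 3 * ν * (d + 1) + 3 * ν)) (by nlinarith)
  have h3 : (ν : ℤ) * (2 * (K + 3 * ν * (d + 1))) ≤
      2 * (K + 3 * ν * (d + 1) + 3 * ν) * d + c := by
    have h4 : ((ν * (2 * (K + 3 * ν * (d + 1))) : ℕ) : ℤ) ≤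
        (Module.finrank ℂ (T.grB (2 * (K + 3 * ν * (d + 1) + 3 * ν))) : ℤ) := by
      exact_mod_cast h1
    rw [h2] at h4
    push_cast at h4
    linarith
  have hd' : (d : ℤ) + 1 ≤ ν := by exact_mod_cast hd
  have hK0 : (0 : ℤ) ≤ K := by positivity
  have hν0 : (0 : ℤ) ≤ ν := by positivity
  have hd0 : (0 : ℤ) ≤ d := by positivity
  have h5 : ((d : ℤ) + 1) * (2 * (K + 3 * ν * (d + 1))) ≤
      (ν : ℤ) * (2 * (K + 3 * ν * (d + 1))) := by
    apply mul_le_mul_of_nonneg_right hd'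
    positivity
  have h6 := hK.1
  nlinarith

end Pool.Agent.Helper18.RG
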