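import Pool.Agent.Helper67.RG.EStmts

/-!
# Modules QREL and KER: the relations between the sections `x i`
-/

namespace Pool.Agent.Helper18.RG

open Pool.Agent.Helper67.RG

open Polynomial

section

variable {ν : ℕ} {D : Pell ν} (T : Tower D)

/-- the coefficient of `x_0²` -/
noncomputable def ca (D : Pell ν) (i : Fin 12) : ℂ := (D.lam 1 - D.lam i) / (D.lam 1 - D.lam 0)

/-- the coefficient of `x_1²` -/
noncomputable def cb (D : Pell ν) (i : Fin 12) : ℂ := (D.lam i - D.lam 0) / (D.lam 1 - D.lam 0)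

theorem lam_ne (D : Pell ν) : D.lam 1 - D.lam 0 ≠ 0 := by
  rw [sub_ne_zero]
  intro h
  have h' := D.inj h
  exact absurd h' (by decide)

theorem ca_add_cb (D : Pell ν) (i : Fin 12) : ca D i + cb D i = 1 := by
  have h := lam_ne D
  unfold ca cb
  field_simp
  ring

theorem ca_mul_cb (D : Pell ν) (i : Fin 12) :
    ca D i * D.lam 0 + cb D i * D.lam 1 = D.lam i := by
  have h := lam_ne D
  unfold ca cb
  field_simp
  ring

theorem quad_qq (D : Pell ν) (j : Fin 10) : quad (qq D j) =
    MvPolynomial.X (Fin.natAdd 2 j) ^ 2 -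
      MvPolynomial.C (ca D (Fin.natAdd 2 j)) * MvPolynomial.X 0 ^ 2 -
      MvPolynomial.C (cb D (Fin.natAdd 2 j)) * MvPolynomial.X 1 ^ 2 := by
  classical
  have hj0 : (Fin.natAdd 2 j : Fin 12) ≠ 0 := by
    intro h
    have := congrArg Fin.val h
    simp at this
  have hj1 : (Fin.natAdd 2 j : Fin 12) ≠ 1 := by
    intro h
    have := congrArg Fin.val h
    simp at this
    omega
  have h01 : (0 : Fin 12) ≠ 1 := by decide
  let pj : J := ⟨(Fin.natAdd 2 j, Fin.natAdd 2 j), le_refl _⟩
  let p0 : J := ⟨(0, 0), le_refl _⟩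
  let p1 : J := ⟨(1, 1), le_refl _⟩
  have key : ∀ p : J, (MvPolynomial.C (qq D j p) : MvPolynomial (Fin 12) ℂ) *
      (MvPolynomial.X p.1.1 * MvPolynomial.X p.1.2) =
      (if p = pj then MvPolynomial.X (Fin.natAdd 2 j) ^ 2 else 0) +
      (if p = p0 then -(MvPolynomial.C (ca D (Fin.natAdd 2 j)) * MvPolynomial.X 0 ^ 2) else 0) +
      (if p = p1 then -(MvPolynomial.C (cb D (Fin.natAdd 2 j)) * MvPolynomial.X 1 ^ 2) else 0) := by
    intro p
    by_cases hp : p = pj
    · subst hp
      have e0 : pj ≠ p0 := by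
        intro h
        exact hj0 (congrArg (fun q : J => q.1.1) h)
      have e1 : pj ≠ p1 := by
        intro h
        exact hj1 (congrArg (fun q : J => q.1.1) h)
      rw [if_pos rfl, if_neg e0, if_neg e1]
      have : qq D j pj = 1 := by unfold qq; rw [if_pos rfl]
      rw [this, MvPolynomial.C_1]
      ring
    · have hp' : p.1 ≠ (Fin.natAdd 2 j, Fin.natAdd 2 j) := fun h => hp (Subtype.ext h)
      rw [if_neg hp]
      by_cases hp0 : p = p0
      · subst hp0
        have e1 : p0 ≠ p1 := by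
          intro h
          exact h01 (congrArg (fun q : J => q.1.1) h)
        rw [if_pos rfl, if_neg e1]
        have : qq D j p0 = -(ca D (Fin.natAdd 2 j)) := by
          unfold qq; rw [if_neg hp', if_pos rfl]; rfl
        rw [this, MvPolynomial.C_neg]
        ring
      · have hp0' : p.1 ≠ (0, 0) := fun h => hp0 (Subtype.ext h)
        rw [if_neg hp0]
        by_cases hp1 : p = p1
        · subst hp1
          rw [if_pos rfl]
          have : qq D j p1 = -(cb D (Fin.natAdd 2 j)) := by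
            unfold qq; rw [if_neg hp', if_neg hp0', if_pos rfl]; rfl
          rw [this, MvPolynomial.C_neg]
          ring
        · have hp1' : p.1 ≠ (1, 1) := fun h => hp1 (Subtype.ext h)
          rw [if_neg hp1]
          have : qq D j p = 0 := by
            unfold qq; rw [if_neg hp', if_neg hp0', if_neg hp1']
          rw [this, MvPolynomial.C_0]
          ring
  unfold quad
  rw [Finset.sum_congr rfl fun p _ => key p, Finset.sum_add_distrib, Finset.sum_add_distrib,
    Finset.sum_ite_eq', Finset.sum_ite_eq', Finset.sum_ite_eq']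
  simp only [Finset.mem_univ, if_true]
  ring

theorem xx_sq (i : Fin 12) :
    T.xx i ^ 2 = C (tau - algebraMap ℂ Om (D.lam i)) * X ^ 2 := by
  rw [Tower.xx, ← C_mul_X_pow_eq_monomial, pow_one, mul_pow, ← C_pow, T.hr i]

theorem xx_sq' (i : Fin 12) :
    T.xx i ^ 2 = C (algebraMap ℂ Om (ca D i)) * T.xx 0 ^ 2 +
      C (algebraMap ℂ Om (cb D i)) * T.xx 1 ^ 2 := by
  rw [xx_sq, xx_sq, xx_sq, ← mul_assoc, ← mul_assoc, ← C_mul, ← C_mul, ← add_mul, ← C_add]
  congr 2
  have h1 := ca_add_cb D i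
  have h2 := ca_mul_cb D i
  have h1' : algebraMap ℂ Om (ca D i) + algebraMap ℂ Om (cb D i) = 1 := by
    rw [← map_add, h1, map_one]
  rw [← h2]
  simp only [map_add, map_mul]
  linear_combination (-tau) * h1'

/-- the map to `Ω[X]` -/
noncomputable def phi : MvPolynomial (Fin 12) ℂ →ₐ[ℂ] Om[X] := MvPolynomial.aeval T.xx

theorem phi_eq (P : MvPolynomial (Fin 12) ℂ) :
    ((MvPolynomial.aeval T.x P : T.B) : Om[X]) = phi T P := by
  have h : T.B.val.comp (MvPolynomial.aeval T.x) = phi T := by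
    unfold phi
    apply MvPolynomial.algHom_ext
    intro i
    simp [Tower.x]
  rw [← h]
  rfl

theorem algMap_C (c : ℂ) : algebraMap ℂ Om[X] c = C (algebraMap ℂ Om c) := rfl

theorem phi_quad (j : Fin 10) : phi T (quad (qq D j)) = 0 := by
  rw [quad_qq]
  unfold phi
  simp only [map_sub, map_mul, map_pow, MvPolynomial.aeval_X, MvPolynomial.aeval_C, algMap_C]
  rw [xx_sq' T (Fin.natAdd 2 j)]
  ring

/-- the ideal generated by the ten quadrics -/
noncomputable def idl (D : Pell ν) : Ideal (MvPolynomial (Fin 12) ℂ) :=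
  Ideal.span (Set.range fun j => quad (qq D j))

theorem phi_idl (P : MvPolynomial (Fin 12) ℂ) (hP : P ∈ idl D) : phi T P = 0 := by
  have : idl D ≤ RingHom.ker (phi T : MvPolynomial (Fin 12) ℂ →+* Om[X]) := by
    unfold idl
    rw [Ideal.span_le]
    rintro _ ⟨j, rfl⟩
    exact phi_quad T j
  exact this hP

/-- the squares modulo the ideal -/
theorem sq_mem_idl (D : Pell ν) (i : Fin 12) :
    MvPolynomial.X i ^ 2 - (MvPolynomial.C (ca D i) * MvPolynomial.X 0 ^ 2 +
      MvPolynomial.C (cb D i) * MvPolynomial.X 1 ^ 2) ∈ idl D := by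
  have hl := lam_ne D
  by_cases h0 : i = 0
  · subst h0
    have ha : ca D 0 = 1 := by unfold ca; exact div_self hl
    have hb : cb D 0 = 0 := by unfold cb; rw [sub_self, zero_div]
    rw [ha, hb, MvPolynomial.C_1, MvPolynomial.C_0]
    have : MvPolynomial.X 0 ^ 2 - ((1 : MvPolynomial (Fin 12) ℂ) * MvPolynomial.X 0 ^ 2 +
      0 * MvPolynomial.X 1 ^ 2) = 0 := by ring
    rw [this]
    exact Ideal.zero_mem _
  by_cases h1 : i = 1
  · subst h1
    have ha : ca D 1 = 0 := by unfold ca; rw [sub_self, zero_div]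
    have hb : cb D 1 = 1 := by unfold cb; exact div_self hl
    rw [ha, hb, MvPolynomial.C_1, MvPolynomial.C_0]
    have : MvPolynomial.X 1 ^ 2 - ((0 : MvPolynomial (Fin 12) ℂ) * MvPolynomial.X 0 ^ 2 +
      1 * MvPolynomial.X 1 ^ 2) = 0 := by ring
    rw [this]
    exact Ideal.zero_mem _
  · have hi : 2 ≤ (i : ℕ) := by
      by_contra h
      have h' : (i : ℕ) = 0 ∨ (i : ℕ) = 1 := by omega
      rcases h' with h' | h'
      · exact h0 (Fin.ext h')
      · exact h1 (Fin.ext h')
    obtain ⟨j, rfl⟩ : ∃ j : Fin 10, Fin.natAdd 2 j = i := by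
      refine ⟨⟨(i : ℕ) - 2, by omega⟩, ?_⟩
      apply Fin.ext
      simp
      omega
    have : quad (qq D j) ∈ idl D := Ideal.subset_span ⟨j, rfl⟩
    rw [quad_qq, sub_sub] at this
    exact this

/-- polynomials in `X_0²`, `X_1²` -/
noncomputable def sqp (q : MvPolynomial (Fin 2) ℂ) : MvPolynomial (Fin 12) ℂ :=
  MvPolynomial.aeval ![MvPolynomial.X 0 ^ 2, MvPolynomial.X 1 ^ 2] q

/-- the square-free monomials -/
noncomputable def mon (s : Finset (Fin 12)) : MvPolynomial (Fin 12) ℂ :=
  ∏ i ∈ s, MvPolynomial.X i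

/-- the elements in normal form -/
noncomputable def nf : Submodule ℂ (MvPolynomial (Fin 12) ℂ) :=
  Submodule.span ℂ {P | ∃ (q : MvPolynomial (Fin 2) ℂ) (s : Finset (Fin 12)), P = sqp q * mon s}

theorem nf_mul_X (D : Pell ν) (P : MvPolynomial (Fin 12) ℂ) (hP : P ∈ nf) (i : Fin 12) :
    P * MvPolynomial.X i ∈ (idl D).restrictScalars ℂ ⊔ nf := by
  classical
  unfold nf at hP
  induction hP using Submodule.span_induction with
  | mem P hP =>
    obtain ⟨q, s, rfl⟩ := hP
    by_cases his : i ∈ s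
    · have e1 : mon s = MvPolynomial.X i * mon (s.erase i) := by
        unfold mon
        exact (Finset.mul_prod_erase s _ his).symm
      have e2 : sqp q * mon s * MvPolynomial.X i =
          (sqp q * mon (s.erase i)) * (MvPolynomial.X i ^ 2 -
            (MvPolynomial.C (ca D i) * MvPolynomial.X 0 ^ 2 +
              MvPolynomial.C (cb D i) * MvPolynomial.X 1 ^ 2)) +
          sqp (q * (MvPolynomial.C (ca D i) * MvPolynomial.X 0 +
            MvPolynomial.C (cb D i) * MvPolynomial.X 1)) * mon (s.erase i) := by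
        rw [e1]
        unfold sqp
        simp only [map_mul, map_add, MvPolynomial.aeval_X, MvPolynomial.aeval_C,
          Matrix.cons_val_zero, Matrix.cons_val_one, MvPolynomial.algebraMap_eq]
        ring
      rw [e2]
      refine Submodule.add_mem_sup ?_ ?_
      · exact Ideal.mul_mem_left _ _ (sq_mem_idl D i)
      · exact Submodule.subset_span ⟨_, _, rfl⟩
    · have e1 : sqp q * mon s * MvPolynomial.X i = sqp q * mon (insert i s) := by
        unfold mon
        rw [Finset.prod_insert his]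
        ring
      rw [e1]
      exact Submodule.mem_sup_right (Submodule.subset_span ⟨_, _, rfl⟩)
  | zero => rw [zero_mul]; exact Submodule.zero_mem _
  | add P Q _ _ h1 h2 => rw [add_mul]; exact Submodule.add_mem _ h1 h2
  | smul c P _ h => rw [smul_mul_assoc]; exact Submodule.smul_mem _ _ h

theorem nf_top (D : Pell ν) (P : MvPolynomial (Fin 12) ℂ) :
    P ∈ (idl D).restrictScalars ℂ ⊔ nf := by
  induction P using MvPolynomial.induction_on with
  | C a =>
    refine Submodule.mem_sup_right (Submodule.subset_span ⟨MvPolynomial.C a, ∅, ?_⟩)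
    unfold sqp mon
    rw [Finset.prod_empty, mul_one, MvPolynomial.aeval_C]
    rfl
  | add p q hp hq => exact Submodule.add_mem _ hp hq
  | mul_X p i hp =>
    obtain ⟨a, ha, b, hb, rfl⟩ := Submodule.mem_sup.mp hp
    rw [add_mul]
    refine Submodule.add_mem _ (Submodule.mem_sup_left ?_) (nf_mul_X D b hb i)
    exact Ideal.mul_mem_right _ _ ha

theorem nf_form (P : MvPolynomial (Fin 12) ℂ) (hP : P ∈ nf) :
    ∃ Q : Finset (Fin 12) → MvPolynomial (Fin 2) ℂ, P = ∑ s, sqp (Q s) * mon s := by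
  classical
  unfold nf at hP
  induction hP using Submodule.span_induction with
  | mem P hP =>
    obtain ⟨q, s, rfl⟩ := hP
    refine ⟨fun t => if t = s then q else 0, ?_⟩
    rw [Finset.sum_eq_single s]
    · simp only [if_true]
    · intro t _ ht
      simp only [if_neg ht]
      unfold sqp
      rw [map_zero, zero_mul]
    · intro h
      exact absurd (Finset.mem_univ s) h
  | zero =>
    refine ⟨fun _ => 0, ?_⟩
    unfold sqp
    simp
  | add P Q _ _ h1 h2 =>
    obtain ⟨q1, rfl⟩ := h1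
    obtain ⟨q2, rfl⟩ := h2
    refine ⟨fun s => q1 s + q2 s, ?_⟩
    rw [← Finset.sum_add_distrib]
    refine Finset.sum_congr rfl fun s _ => ?_
    unfold sqp
    rw [map_add, add_mul]
  | smul c P _ h =>
    obtain ⟨q, rfl⟩ := h
    refine ⟨fun s => c • q s, ?_⟩
    rw [Finset.smul_sum]
    refine Finset.sum_congr rfl fun s _ => ?_
    unfold sqp
    rw [map_smul, smul_mul_assoc]

/-- `τ` is the image of the variable -/
theorem aeval_tau (p : ℂ[X]) :
    aeval tau p = algebraMap (RatFunc ℂ) Om (algebraMap ℂ[X] (RatFunc ℂ) p) := by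
  rw [tau, aeval_algebraMap_apply, RatFunc.aeval_X_left_eq_algebraMap]

/-- `ℂ[τ][X]` in `Ω[X]` -/
noncomputable def psi : ℂ[X][X] →ₐ[ℂ] Om[X] := Polynomial.mapAlgHom (aeval tau)

theorem psi_coeff (g : ℂ[X][X]) (k : ℕ) : (psi g).coeff k = aeval tau (g.coeff k) := by
  unfold psi
  rw [Polynomial.coe_mapAlgHom, Polynomial.coeff_map]
  rfl

/-- the coefficient polynomials -/
noncomputable def gs (D : Pell ν) (q : MvPolynomial (Fin 2) ℂ) : ℂ[X][X] :=
  MvPolynomial.aeval ![C (X - C (D.lam 0)) * X ^ 2, C (X - C (D.lam 1)) * X ^ 2] q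

theorem psi_gen (c : ℂ) : psi (C (X - C c) * X ^ 2) = C (tau - algebraMap ℂ Om c) * X ^ 2 := by
  unfold psi
  rw [Polynomial.coe_mapAlgHom]
  simp

theorem psi_gs (q : MvPolynomial (Fin 2) ℂ) : psi (gs D q) = phi T (sqp q) := by
  have h : psi.comp (MvPolynomial.aeval ![C (X - C (D.lam 0)) * X ^ 2,
      C (X - C (D.lam 1)) * X ^ 2] : MvPolynomial (Fin 2) ℂ →ₐ[ℂ] ℂ[X][X]) =
      (phi T).comp (MvPolynomial.aeval ![MvPolynomial.X 0 ^ 2, MvPolynomial.X 1 ^ 2]) := by
    apply MvPolynomial.algHom_ext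
    intro i
    fin_cases i
    · simp only [AlgHom.comp_apply, MvPolynomial.aeval_X]
      show psi (C (X - C (D.lam 0)) * X ^ 2) = phi T (MvPolynomial.X 0 ^ 2)
      rw [psi_gen, map_pow]
      unfold phi
      rw [MvPolynomial.aeval_X, xx_sq]
    · simp only [AlgHom.comp_apply, MvPolynomial.aeval_X]
      show psi (C (X - C (D.lam 1)) * X ^ 2) = phi T (MvPolynomial.X 1 ^ 2)
      rw [psi_gen, map_pow]
      unfold phi
      rw [MvPolynomial.aeval_X, xx_sq]
  exact AlgHom.congr_fun h q

theorem phi_mon (s : Finset (Fin 12)) : phi T (mon s) = C (T.rr s) * X ^ s.card := by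
  unfold phi mon
  rw [map_prod, Tower.rr, map_prod]
  have h : ∀ i ∈ s, (MvPolynomial.aeval T.xx) (MvPolynomial.X i : MvPolynomial (Fin 12) ℂ) =
      C (T.r i) * X := by
    intro i _
    rw [MvPolynomial.aeval_X, Tower.xx, ← C_mul_X_pow_eq_monomial, pow_one]
  rw [Finset.prod_congr rfl h, Finset.prod_mul_distrib, Finset.prod_const]

/-- independence of the `r_s` over `ℂ[τ][X]` -/
theorem ind_psi (hB : ST_BAS) (g : Finset (Fin 12) → ℂ[X][X])
    (h : ∑ s, psi (g s) * C (T.rr s) = 0) (s : Finset (Fin 12)) : g s = 0 := by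
  obtain ⟨_, _, _, hli⟩ := hB ν D T
  rw [Fintype.linearIndependent_iff] at hli
  ext k : 1
  have h1 := congrArg (fun P : Om[X] => P.coeff k) h
  simp only [Polynomial.finsetSum_coeff, Polynomial.coeff_mul_C, psi_coeff,
    Polynomial.coeff_zero] at h1
  have h2 := hli (fun s => algebraMap ℂ[X] (RatFunc ℂ) ((g s).coeff k)) ?_ s
  · rw [coeff_zero]
    exact (RatFunc.algebraMap_injective ℂ) (by rw [h2, map_zero])
  · rw [← h1]
    refine Finset.sum_congr rfl fun s _ => ?_
    rw [Algebra.smul_def, aeval_tau]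

/-- evaluation of `ℂ[τ][X]` at a point -/
noncomputable def evp (c d : ℂ) : ℂ[X][X] →ₐ[ℂ] ℂ :=
  (Polynomial.aeval d).comp (Polynomial.mapAlgHom (Polynomial.aeval c))

theorem evp_gen (c d e : ℂ) : evp c d (C (X - C e) * X ^ 2) = (c - e) * d ^ 2 := by
  unfold evp
  rw [AlgHom.comp_apply, Polynomial.coe_mapAlgHom]
  simp

theorem gs_inj (q : MvPolynomial (Fin 2) ℂ) (h : gs D q = 0) : q = 0 := by
  have hl := lam_ne D
  have hev : ∀ u v : ℂ, u ≠ v → MvPolynomial.eval ![u, v] q = 0 := by
    intro u v huv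
    obtain ⟨d, hd⟩ := IsAlgClosed.exists_pow_nat_eq ((u - v) / (D.lam 1 - D.lam 0))
      (n := 2) (by norm_num)
    have huv' : u - v ≠ 0 := sub_ne_zero.mpr huv
    have hd0 : d ^ 2 ≠ 0 := by
      rw [hd]
      exact div_ne_zero huv' hl
    have hd1 : u / d ^ 2 * d ^ 2 = u := div_mul_cancel₀ u hd0
    have hd2 : (D.lam 1 - D.lam 0) * d ^ 2 = u - v := by
      rw [hd]; exact mul_div_cancel₀ _ hl
    have h1 := congrArg (evp (D.lam 0 + u / d ^ 2) d) h
    rw [map_zero] at h1
    have h2 : (evp (D.lam 0 + u / d ^ 2) d).comp (MvPolynomial.aeval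
        ![C (X - C (D.lam 0)) * X ^ 2, C (X - C (D.lam 1)) * X ^ 2] :
          MvPolynomial (Fin 2) ℂ →ₐ[ℂ] ℂ[X][X]) = MvPolynomial.aeval ![u, v] := by
      apply MvPolynomial.algHom_ext
      intro i
      fin_cases i
      · simp only [AlgHom.comp_apply, MvPolynomial.aeval_X]
        show evp (D.lam 0 + u / d ^ 2) d (C (X - C (D.lam 0)) * X ^ 2) = u
        rw [evp_gen]
        linear_combination hd1
      · simp only [AlgHom.comp_apply, MvPolynomial.aeval_X]
        show evp (D.lam 0 + u / d ^ 2) d (C (X - C (D.lam 1)) * X ^ 2) = v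
        rw [evp_gen]
        linear_combination hd1 - hd2
    have h3 := AlgHom.congr_fun h2 q
    rw [AlgHom.comp_apply] at h3
    unfold gs at h1
    rw [h1] at h3
    rw [← MvPolynomial.coe_aeval_eq_eval]
    exact h3.symm
  have h0 : (MvPolynomial.X 0 - MvPolynomial.X 1) * q = 0 := by
    apply MvPolynomial.funext
    intro x
    rw [map_mul, map_sub, MvPolynomial.eval_X, MvPolynomial.eval_X, map_zero]
    by_cases hx : x 0 = x 1
    · rw [hx, sub_self, zero_mul]
    · have hx' : x = ![x 0, x 1] := by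
        funext i
        fin_cases i <;> rfl
      rw [hx'] 
      rw [hev _ _ hx, mul_zero]
  rcases mul_eq_zero.mp h0 with h1 | h1
  · exfalso
    have h2 := congrArg (MvPolynomial.eval ![1, 0]) h1
    rw [map_sub, MvPolynomial.eval_X, MvPolynomial.eval_X, map_zero] at h2
    simp at h2
  · exact h1

end

theorem st_KER (hB : ST_BAS) : ST_KER := by
  intro ν D T P hP
  have h1 : phi T P = 0 := by
    rw [← phi_eq, hP]
    rfl
  obtain ⟨a, ha, b, hb, rfl⟩ := Submodule.mem_sup.mp (nf_top D P)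
  obtain ⟨Q, rfl⟩ := nf_form b hb
  rw [map_add, phi_idl T a ha, zero_add, map_sum] at h1
  have h2 : ∑ s, psi (gs D (Q s) * X ^ s.card) * C (T.rr s) = 0 := by
    rw [← h1]
    refine Finset.sum_congr rfl fun s _ => ?_
    rw [map_mul, map_mul, psi_gs, phi_mon, map_pow]
    have : psi (X : ℂ[X][X]) = X := by
      unfold psi
      rw [Polynomial.coe_mapAlgHom, Polynomial.map_X]
    rw [this]
    ring
  have h3 : ∀ s, Q s = 0 := by
    intro s
    have h4 := ind_psi T hB _ h2 s
    rcases mul_eq_zero.mp h4 with h5 | h5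
    · exact gs_inj (D := D) (Q s) h5
    · exact absurd h5 (pow_ne_zero _ X_ne_zero)
  have h4 : ∑ s, sqp (Q s) * mon s = 0 := by
    refine Finset.sum_eq_zero fun s _ => ?_
    rw [h3 s]
    unfold sqp
    rw [map_zero, zero_mul]
  rw [h4, add_zero]
  exact ha

end Pool.Agent.Helper18.RG
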