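import Pool.Agent.Helper18.RG.KER

/-!
# Module QREL
-/

namespace Pool.Agent.Helper18.RG

open Pool.Agent.Helper67.RG

open Polynomial

section

variable {ν : ℕ} {D : Pell ν} (T : Tower D)

theorem qq_diag (D : Pell ν) (j k : Fin 10) :
    qq D j ⟨(Fin.natAdd 2 k, Fin.natAdd 2 k), le_refl _⟩ = if k = j then 1 else 0 := by
  have hk0 : (Fin.natAdd 2 k : Fin 12) ≠ 0 := by
    intro h
    have := congrArg Fin.val h
    simp at this
  have hk1 : (Fin.natAdd 2 k : Fin 12) ≠ 1 := by
    intro h
    have := congrArg Fin.val h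
    simp at this
    omega
  unfold qq
  by_cases h : k = j
  · subst h
    rw [if_pos rfl, if_pos rfl]
  · have h1 : ¬ ((Fin.natAdd 2 k : Fin 12), (Fin.natAdd 2 k : Fin 12)) =
        (Fin.natAdd 2 j, Fin.natAdd 2 j) := by
      intro h'
      have h2 : (Fin.natAdd 2 k : Fin 12) = Fin.natAdd 2 j := congrArg Prod.fst h'
      exact h (Fin.natAdd_injective _ _ h2)
    have h2 : ¬ ((Fin.natAdd 2 k : Fin 12), (Fin.natAdd 2 k : Fin 12)) = (0, 0) :=
      fun h' => hk0 (congrArg Prod.fst h')
    have h3 : ¬ ((Fin.natAdd 2 k : Fin 12), (Fin.natAdd 2 k : Fin 12)) = (1, 1) :=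
      fun h' => hk1 (congrArg Prod.fst h')
    rw [if_neg h1, if_neg h2, if_neg h3, if_neg h]

theorem qq_ind (D : Pell ν) : LinearIndependent ℂ (qq D) := by
  rw [Fintype.linearIndependent_iff]
  intro g hg k
  have h := congrFun hg ⟨(Fin.natAdd 2 k, Fin.natAdd 2 k), le_refl _⟩
  rw [Finset.sum_apply] at h
  simp only [Pi.smul_apply, qq_diag, smul_eq_mul, mul_ite, mul_one, mul_zero, Pi.zero_apply]
    at h
  rw [Finset.sum_ite_eq] at h
  simpa using h

theorem rr_ind (hB : ST_BAS) (g : Finset (Fin 12) → RatFunc ℂ)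
    (h : ∑ s, algebraMap (RatFunc ℂ) Om (g s) * T.rr s = 0) (s : Finset (Fin 12)) :
    g s = 0 := by
  obtain ⟨_, _, _, hli⟩ := hB ν D T
  rw [Fintype.linearIndependent_iff] at hli
  refine hli g ?_ s
  rw [← h]
  exact Finset.sum_congr rfl fun s _ => by rw [Algebra.smul_def]

theorem x_ind (hB : ST_BAS) : LinearIndependent ℂ T.x := by
  classical
  rw [Fintype.linearIndependent_iff]
  intro c hc k
  have h1 : ∑ i, algebraMap ℂ Om (c i) * T.r i = 0 := by
    have h2 := congrArg (fun P : T.B => (P : Om[X]).coeff 1) hc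
    simp only [AddSubmonoidClass.coe_finsetSum, Subalgebra.coe_smul, finsetSum_coeff,
      coeff_smul, ZeroMemClass.coe_zero, coeff_zero] at h2
    rw [← h2]
    refine Finset.sum_congr rfl fun i _ => ?_
    have : ((T.x i : T.B) : Om[X]).coeff 1 = T.r i := by
      show (T.xx i).coeff 1 = T.r i
      unfold Tower.xx
      rw [coeff_monomial, if_pos rfl]
    rw [this, Algebra.smul_def]
  have h2 : ∑ s : Finset (Fin 12), algebraMap (RatFunc ℂ) Om
      (∑ i : Fin 12, if s = {i} then algebraMap ℂ (RatFunc ℂ) (c i) else 0) * T.rr s = 0 := by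
    rw [← h1]
    simp only [map_sum, Finset.sum_mul]
    rw [Finset.sum_comm]
    refine Finset.sum_congr rfl fun i _ => ?_
    rw [Finset.sum_eq_single {i}]
    · rw [if_pos rfl, ← IsScalarTower.algebraMap_apply]
      unfold Tower.rr
      rw [Finset.prod_singleton]
    · intro s _ hs
      rw [if_neg hs, map_zero, zero_mul]
    · intro h
      exact absurd (Finset.mem_univ _) h
  have h3 := rr_ind T hB _ h2 {k}
  simp only [Finset.singleton_inj] at h3
  rw [Finset.sum_ite_eq] at h3
  simp only [Finset.mem_univ, if_true] at h3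
  exact (algebraMap ℂ (RatFunc ℂ)).injective (by rw [h3, map_zero])

theorem quad_add (a b : J → ℂ) : quad (a + b) = quad a + quad b := by
  unfold quad
  rw [← Finset.sum_add_distrib]
  refine Finset.sum_congr rfl fun p _ => ?_
  rw [Pi.add_apply, map_add, add_mul]

theorem quad_smul (c : ℂ) (a : J → ℂ) : quad (c • a) = MvPolynomial.C c * quad a := by
  unfold quad
  rw [Finset.mul_sum]
  refine Finset.sum_congr rfl fun p _ => ?_
  rw [Pi.smul_apply, smul_eq_mul, map_mul, mul_assoc]

theorem quad_zero : quad 0 = 0 := by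
  unfold quad
  refine Finset.sum_eq_zero fun p _ => ?_
  rw [Pi.zero_apply, map_zero, zero_mul]

theorem phi_quad_span (c : J → ℂ) (hc : c ∈ Submodule.span ℂ (Set.range (qq D))) :
    phi T (quad c) = 0 := by
  induction hc using Submodule.span_induction with
  | mem c hc =>
    obtain ⟨j, rfl⟩ := hc
    exact phi_quad T j
  | zero => rw [quad_zero, map_zero]
  | add a b _ _ h1 h2 => rw [quad_add, map_add, h1, h2, add_zero]
  | smul e a _ h => rw [quad_smul, map_mul, h, mul_zero]

/-- value of a quadric -/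
theorem phi_quad_eq (c : J → ℂ) : phi T (quad c) =
    C (∑ p : J, algebraMap ℂ Om (c p) * (T.r p.1.1 * T.r p.1.2)) * X ^ 2 := by
  unfold phi quad
  rw [map_sum, map_sum, Finset.sum_mul]
  refine Finset.sum_congr rfl fun p _ => ?_
  rw [map_mul, map_mul, MvPolynomial.aeval_X, MvPolynomial.aeval_X, MvPolynomial.aeval_C,
    algMap_C, Tower.xx, Tower.xx, ← C_mul_X_pow_eq_monomial, ← C_mul_X_pow_eq_monomial, pow_one,
    map_mul, map_mul]
  ring

/-- the subset of a pair -/
def sg (p : J) : Finset (Fin 12) := if p.1.1 = p.1.2 then ∅ else {p.1.1, p.1.2}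

/-- the coefficient of a pair -/
noncomputable def kg (D : Pell ν) (p : J) : ℂ[X] :=
  if p.1.1 = p.1.2 then X - C (D.lam p.1.1) else 1

theorem r_mul_r (p : J) : T.r p.1.1 * T.r p.1.2 = aeval tau (kg D p) * T.rr (sg p) := by
  unfold kg sg Tower.rr
  split_ifs with h
  · rw [h, Finset.prod_empty, mul_one, ← pow_two, T.hr]
    simp
  · rw [Finset.prod_pair h, map_one, one_mul]

theorem sg_inj (p q : J) (hp : p.1.1 ≠ p.1.2) (h : sg p = sg q) : p = q := by
  unfold sg at h
  rw [if_neg hp] at h
  split_ifs at h with hq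
  · exact absurd h (Finset.insert_ne_empty _ _)
  · have hp' : p.1.1 < p.1.2 := lt_of_le_of_ne p.2 hp
    have hq' : q.1.1 < q.1.2 := lt_of_le_of_ne q.2 hq
    have h1 : p.1.1 ∈ ({q.1.1, q.1.2} : Finset (Fin 12)) := by rw [← h]; simp
    have h2 : p.1.2 ∈ ({q.1.1, q.1.2} : Finset (Fin 12)) := by rw [← h]; simp
    rw [Finset.mem_insert, Finset.mem_singleton] at h1 h2
    rcases h1 with h1 | h1
    · rcases h2 with h2 | h2
      · exact absurd (h1.trans h2.symm) hp
      · exact Subtype.ext (Prod.ext h1 h2)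
    · rcases h2 with h2 | h2
      · exfalso
        rw [h1, h2] at hp'
        exact absurd hp' (not_lt.mpr hq'.le)
      · exact absurd (h1.trans h2.symm) hp

theorem quad_ker (hB : ST_BAS) (c : J → ℂ) (h : phi T (quad c) = 0) (s : Finset (Fin 12)) :
    ∑ p : J, (if s = sg p then C (c p) * kg D p else 0) = 0 := by
  rw [phi_quad_eq] at h
  have h1 : ∑ p : J, algebraMap ℂ Om (c p) * (T.r p.1.1 * T.r p.1.2) = 0 := by
    rcases mul_eq_zero.mp h with h | h
    · exact C_eq_zero.mp h
    · exact absurd h (pow_ne_zero _ X_ne_zero)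
  have h2 : ∑ s : Finset (Fin 12), algebraMap (RatFunc ℂ) Om (algebraMap ℂ[X] (RatFunc ℂ)
      (∑ p : J, (if s = sg p then C (c p) * kg D p else 0))) * T.rr s = 0 := by
    rw [← h1]
    simp only [map_sum, Finset.sum_mul]
    rw [Finset.sum_comm]
    refine Finset.sum_congr rfl fun p _ => ?_
    rw [Finset.sum_eq_single (sg p)]
    · rw [if_pos rfl, ← aeval_tau, map_mul, aeval_C, r_mul_r, mul_assoc]
    · intro s _ hs
      rw [if_neg hs, map_zero, map_zero, zero_mul]
    · intro h
      exact absurd (Finset.mem_univ _) h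
  have h3 := rr_ind T hB _ h2 s
  exact (RatFunc.algebraMap_injective ℂ) (by rw [h3, map_zero])

/-- pairs `(0,0)` and `(1,1)` -/
def pd (i : Fin 12) : J := ⟨(i, i), le_refl _⟩

theorem quad_ker_zero (hB : ST_BAS) (c : J → ℂ) (h : phi T (quad c) = 0)
    (hd : ∀ j : Fin 10, c (pd (Fin.natAdd 2 j)) = 0) : c = 0 := by
  have hoff : ∀ p : J, p.1.1 ≠ p.1.2 → c p = 0 := by
    intro p hp
    have h1 := quad_ker T hB c h (sg p)
    rw [Finset.sum_eq_single p] at h1
    · rw [if_pos rfl] at h1
      unfold kg at h1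
      rw [if_neg hp, mul_one] at h1
      exact C_eq_zero.mp h1
    · intro q _ hq
      rw [if_neg]
      intro h2
      exact hq (sg_inj p q hp h2).symm
    · intro h
      exact absurd (Finset.mem_univ _) h
  have hdiag : ∀ i : Fin 12, 2 ≤ (i : ℕ) → c (pd i) = 0 := by
    intro i hi
    have h1 := hd ⟨(i : ℕ) - 2, by omega⟩
    have h2 : (Fin.natAdd 2 (⟨(i : ℕ) - 2, by omega⟩ : Fin 10) : Fin 12) = i := by
      apply Fin.ext
      simp
      omega
    rw [h2] at h1
    exact h1
  have h1 := quad_ker T hB c h ∅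
  have h01 : pd 0 ≠ pd 1 := by
    intro h
    have := congrArg (fun q : J => q.1.1) h
    exact absurd this (by decide)
  have h2 : ∑ p : J, (if (∅ : Finset (Fin 12)) = sg p then C (c p) * kg D p else 0) =
      C (c (pd 0)) * (X - C (D.lam 0)) + C (c (pd 1)) * (X - C (D.lam 1)) := by
    have h3 : ∀ p : J, (if (∅ : Finset (Fin 12)) = sg p then C (c p) * kg D p else 0) =
        (if p = pd 0 then C (c (pd 0)) * (X - C (D.lam 0)) else 0) +
        (if p = pd 1 then C (c (pd 1)) * (X - C (D.lam 1)) else 0) := by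
      intro p
      by_cases hp0 : p = pd 0
      · subst hp0
        rw [if_pos rfl, if_neg h01, add_zero, if_pos (by simp [sg, pd])]
        simp [kg, pd]
      by_cases hp1 : p = pd 1
      · subst hp1
        rw [if_neg hp0, if_pos rfl, zero_add, if_pos (by simp [sg, pd])]
        simp [kg, pd]
      · rw [if_neg hp0, if_neg hp1, add_zero]
        have hc : c p = 0 := by
          by_cases hpd : p.1.1 = p.1.2
          · have hpe : p = pd p.1.1 := Subtype.ext (Prod.ext rfl hpd.symm)
            rw [hpe]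
            apply hdiag
            by_contra hlt
            have h' : (p.1.1 : ℕ) = 0 ∨ (p.1.1 : ℕ) = 1 := by omega
            rcases h' with h' | h'
            · apply hp0
              rw [hpe]
              congr 1
              exact Fin.ext h'
            · apply hp1
              rw [hpe]
              congr 1
              exact Fin.ext h'
          · exact hoff p hpd
        rw [hc, C_0, zero_mul, ite_self]
    rw [Finset.sum_congr rfl fun p _ => h3 p, Finset.sum_add_distrib, Finset.sum_ite_eq',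
      Finset.sum_ite_eq']
    simp only [Finset.mem_univ, if_true]
  rw [h2] at h1
  have hl := lam_ne D
  have e0 := congrArg (Polynomial.eval (D.lam 0)) h1
  have e1 := congrArg (Polynomial.eval (D.lam 1)) h1
  simp only [eval_add, eval_mul, eval_C, eval_sub, eval_X, eval_zero, sub_self, mul_zero,
    zero_add, add_zero] at e0 e1
  have c0 : c (pd 0) = 0 := by
    rcases mul_eq_zero.mp e1 with h | h
    · exact h
    · exact absurd h hl
  have c1 : c (pd 1) = 0 := by
    rcases mul_eq_zero.mp e0 with h | h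
    · exact h
    · exact absurd (by rw [← neg_sub, h, neg_zero]) hl
  funext p
  rw [Pi.zero_apply]
  by_cases hpd : p.1.1 = p.1.2
  · have hpe : p = pd p.1.1 := Subtype.ext (Prod.ext rfl hpd.symm)
    rw [hpe]
    by_cases hi : 2 ≤ (p.1.1 : ℕ)
    · exact hdiag _ hi
    · have h' : (p.1.1 : ℕ) = 0 ∨ (p.1.1 : ℕ) = 1 := by omega
      rcases h' with h' | h'
      · have : p.1.1 = 0 := Fin.ext h'
        rw [this]; exact c0
      · have : p.1.1 = 1 := Fin.ext h'
        rw [this]; exact c1
  · exact hoff p hpd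

theorem quad_ker_span (hB : ST_BAS) (c : J → ℂ) (h : phi T (quad c) = 0) :
    c ∈ Submodule.span ℂ (Set.range (qq D)) := by
  have hm : ∑ j : Fin 10, c (pd (Fin.natAdd 2 j)) • qq D j ∈
      Submodule.span ℂ (Set.range (qq D)) :=
    Submodule.sum_mem _ fun j _ => Submodule.smul_mem _ _ (Submodule.subset_span ⟨j, rfl⟩)
  have h1 : c + (-1 : ℂ) • ∑ j : Fin 10, c (pd (Fin.natAdd 2 j)) • qq D j = 0 := by
    apply quad_ker_zero T hB
    · rw [quad_add, map_add, h, zero_add]
      exact phi_quad_span T _ (Submodule.smul_mem _ _ hm)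
    · intro k
      rw [Pi.add_apply, Pi.smul_apply, Finset.sum_apply]
      have h2 : ∀ j : Fin 10, (c (pd (Fin.natAdd 2 j)) • qq D j) (pd (Fin.natAdd 2 k)) =
          if k = j then c (pd (Fin.natAdd 2 j)) else 0 := by
        intro j
        rw [Pi.smul_apply]
        have := qq_diag D j k
        unfold pd
        rw [this, smul_eq_mul, mul_ite, mul_one, mul_zero]
      rw [Finset.sum_congr rfl fun j _ => h2 j, Finset.sum_ite_eq]
      simp
  have h2 : c = ∑ j : Fin 10, c (pd (Fin.natAdd 2 j)) • qq D j := by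
    rw [neg_one_smul, ← sub_eq_add_neg, sub_eq_zero] at h1
    exact h1
  rw [h2]
  exact hm

end

theorem st_QREL (hB : ST_BAS) : ST_QREL := by
  intro ν D T
  refine ⟨x_ind T hB, qq_ind D, fun c => ?_⟩
  have h : MvPolynomial.aeval T.x (quad c) = 0 ↔ phi T (quad c) = 0 := by
    rw [← phi_eq]
    constructor
    · intro h; rw [h]; rfl
    · intro h; exact Subtype.ext h
  rw [h]
  exact ⟨quad_ker_span T hB c, phi_quad_span T c⟩

end Pool.Agent.Helper18.RG
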